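import Mathlib

set_option autoImplicit false

namespace Pool.Agent.Results.MP_1f9c83_co.Counter

open Finset

variable {d n : ℕ}

/-- `K` is a polyplex of the `(0,1)`-matrix whose unit entries form the set `A`. -/
def Polyplex (A : Set (Fin d → Fin n)) (K : (Fin d → Fin n) → ℝ) : Prop :=
  (∀ α, 0 ≤ K α) ∧ (∀ α ∉ A, K α = 0) ∧ ∀ i j, ∑ α with α i = j, K α ≤ 1

/-- The weights of the polyplexes of `A`. -/
def weights (A : Set (Fin d → Fin n)) : Set ℝ := {w | ∃ K, Polyplex A K ∧ ∑ α, K α = w}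

def Extremal (A : Set (Fin d → Fin n)) : Prop :=
  (n : ℝ) ∉ weights A ∧ ∀ β ∉ A, (n : ℝ) ∈ weights (insert β A)

def Cover (A : Set (Fin d → Fin n)) (Λ : Fin d → Fin n → ℝ) : Prop :=
  (∀ i j, 0 ≤ Λ i j) ∧ ∀ α ∈ A, 1 ≤ ∑ i, Λ i (α i)

lemma dual {A : Set (Fin d → Fin n)} {K Λ} (h : Polyplex A K) (k : Cover A Λ) :
    ∑ α, K α ≤ ∑ i, ∑ j, Λ i j :=
  calc ∑ α, K α ≤ ∑ α, ∑ i, Λ i (α i) * K α := sum_le_sum fun α _ => by
        rw [← sum_mul]
        by_cases a : α ∈ A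
        · exact le_mul_of_one_le_left (h.1 α) (k.2 α a)
        · simp [h.2.1 α a]
    _ = ∑ i, ∑ j, Λ i j * ∑ α with α i = j, K α := by
        rw [sum_comm]
        refine sum_congr rfl fun i _ => ?_
        rw [← sum_fiberwise (g := fun α => α i)]
        exact sum_congr rfl fun j _ => by
          rw [mul_sum]; exact sum_congr rfl fun α h => by rw [(mem_filter.1 h).2]
    _ ≤ _ := sum_le_sum fun i _ => sum_le_sum fun j _ => mul_le_of_le_one_right (k.1 i j) (h.2.2 i j)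

def wt (α : Fin 11 → Fin 2) : ℕ := ∑ i, ![65, 55, 55, 51, 43, 36, 33, 16, 8, 3, 3] i * α i
def s : Fin 11 → Fin 11 → Fin 2 := ![![0, 0, 1, 1, 1, 1, 0, 0, 0, 0, 0], ![1, 0, 0, 1, 0, 1, 1, 0, 0, 0, 0], ![1, 0, 0, 0, 1, 1, 1, 0, 1, 0, 0], ![0, 1, 1, 1, 0, 0, 0, 1, 1, 0, 0], ![0, 1, 0, 1, 1, 0, 1, 0, 0, 1, 0], ![0, 0, 1, 1, 1, 0, 1, 0, 0, 0, 1], ![0, 1, 1, 0, 0, 1, 1, 0, 0, 1, 1], ![1, 1, 0, 0, 1, 0, 0, 1, 0, 1, 1], ![1, 0, 1, 0, 1, 0, 0, 1, 0, 1, 1], ![0, 0, 0, 1, 1, 1, 1, 1, 0, 1, 1], ![1, 1, 0, 1, 0, 0, 0, 0, 1, 1, 1]]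
def c : Fin 11 → ℕ := ![6, 20, 71, 83, 3, 3, 49, 19, 44, 39, 31]

theorem result : ∃ (A : Set (Fin 11 → Fin 2)) (δ : ℝ), Extremal A ∧
    IsGreatest (weights A) (2 - δ) ∧ ∀ m : ℕ, δ ≠ 1 / m := by
  have a1 : ∀ α, wt α < 185 → 185 ≤ wt fun i => (α i).rev := by decide +kernel
  have a2 : ∀ i j, ∑ t, (if s t i = j then c t else 0) ≤ 185 := by decide +kernel
  have a3 : ∑ t, c t = 368 := by decide +kernel
  have a4 : ∀ t, 185 ≤ wt (s t) := by decide +kernel
  let K : (Fin 11 → Fin 2) → ℝ := fun α => ∑ t, if s t = α then c t / 185 else 0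
  have p : Polyplex {α | 185 ≤ wt α} K := by
    refine ⟨fun _ => sum_nonneg fun t _ => by positivity,
      fun α h => sum_eq_zero fun t _ => if_neg fun e : s t = α => h (e ▸ a4 t), fun i j => ?_⟩
    simp only [K]
    rw [sum_comm]
    simp only [sum_ite_eq, mem_filter, mem_univ, true_and]
    have : ((∑ t, (if s t i = j then c t else 0) : ℕ) : ℝ) ≤ 185 := by exact_mod_cast a2 i j
    push_cast at this
    calc _ = (∑ t, if s t i = j then (c t : ℝ) else 0) / 185 := by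
          rw [sum_div]; exact sum_congr rfl fun t _ => by split_ifs <;> simp
      _ ≤ 1 := by rwa [div_le_one (by norm_num)]
  have e : ∑ α, K α = 2 - 2 / 185 := by
    simp only [K]
    rw [sum_comm]
    simp only [sum_ite_eq, mem_univ, if_true]
    rw [← sum_div, ← Nat.cast_sum, a3]; norm_num
  have cv : Cover {α | 185 ≤ wt α} fun i j =>
      (![65, 55, 55, 51, 43, 36, 33, 16, 8, 3, 3] i * j : ℕ) / 185 :=
    ⟨fun _ _ => div_nonneg (Nat.cast_nonneg _) (by norm_num), fun α h => by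
      rw [← sum_div, one_le_div (by norm_num)]; exact_mod_cast h⟩
  have u : ∀ w ∈ weights {α | 185 ≤ wt α}, w ≤ 2 - 2 / 185 := by
    rintro _ ⟨K, h, rfl⟩
    refine (dual h cv).trans_eq ?_
    simp [Fin.sum_univ_succ]; norm_num
  refine ⟨_, 2 / 185, ⟨fun h => by have := u _ h; norm_num at this, fun β h => ?_⟩,
    ⟨⟨_, p, e⟩, u⟩, fun m e => ?_⟩
  · refine ⟨Pi.single β 1 + Pi.single (fun i => (β i).rev) 1, ⟨fun α => ?_, fun α e => ?_,
      fun i j => ?_⟩, by simp [sum_add_distrib]; norm_num⟩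
    · simp only [Pi.add_apply, Pi.single_apply]; split_ifs <;> norm_num
    · rw [Pi.add_apply, Pi.single_eq_of_ne, Pi.single_eq_of_ne, add_zero]
      · rintro rfl; exact e (.inr (a1 β (not_le.1 h)))
      · rintro rfl; exact e (.inl rfl)
    · simp only [Pi.add_apply, sum_add_distrib, Pi.single_apply, sum_ite_eq', mem_filter, mem_univ,
        true_and]
      generalize β i = b
      fin_cases b <;> fin_cases j <;> simp
  · rcases Nat.eq_zero_or_pos m with rfl | hm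
    · norm_num at e
    · rw [div_eq_div_iff (by norm_num) (by positivity)] at e
      have : 2 * m = 1 * 185 := by exact_mod_cast e
      omega

end Pool.Agent.Results.MP_1f9c83_co.Counter
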